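import Pool.Agent.H145R3.CV1

set_option autoImplicit false

/-!
# Convex-cyclic vectors of `-100 + S`, `S` a contraction of a real normed space

The real analogue of `Pool/Agent/Y509/CCyc/Norm.lean`.
-/

open Filter Topology Polynomial ContinuousLinearMap

namespace Pool.Agent.L0h84.CC

open Pool.Agent.H145R3.CV (xx xx_pos xx_le xx_succ xx_step xx_tendsto)

/-- positivity preserving step on sequences -/
def BB (h : ℕ → ℝ) : ℕ → ℝ := fun n => h (n + 1) + 100 * h n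

lemma BB_nonneg (h : ℕ → ℝ) (hh : ∀ n, 0 ≤ h n) (m : ℕ) : ∀ n, 0 ≤ (BB^[m] h) n := by
  induction m generalizing h with
  | zero => exact hh
  | succ m ih =>
    rw [Function.iterate_succ_apply]
    apply ih
    intro n
    have := hh n
    have := hh (n + 1)
    simp only [BB]
    positivity

lemma BB_lower (h : ℕ → ℝ) (hh : ∀ n, 0 ≤ h n) (m : ℕ) : ∀ n, 100 ^ m * h n ≤ (BB^[m] h) n ∧
    (m : ℝ) * 100 ^ m * h (n + 1) ≤ 100 * (BB^[m] h) n := by
  induction m with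
  | zero =>
    intro n
    simp only [pow_zero, Function.iterate_zero, id]
    have := hh n
    constructor
    · linarith
    · push_cast; linarith
  | succ m ih =>
    intro n
    rw [Function.iterate_succ_apply']
    simp only [BB]
    obtain ⟨h1, h2⟩ := ih n
    obtain ⟨h3, h4⟩ := ih (n + 1)
    have h5 := BB_nonneg h hh m (n + 1)
    constructor
    · rw [pow_succ]; nlinarith
    · push_cast
      have e : ((m : ℝ) + 1) * 100 ^ (m + 1) * h (n + 1) = 100 * ((m : ℝ) * 100 ^ m * h (n + 1)) + 100 * (100 ^ m * h (n + 1)) := by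
        rw [pow_succ]; ring
      rw [e]
      linarith

lemma BB_iter (h : ℕ → ℝ) (hh : ∀ n, 0 ≤ h n) (j : ℕ) : ∀ n,
    ((100 : ℝ) ^ 100) ^ j * h (n + j) ≤ (BB^[100 * j] h) n := by
  induction j with
  | zero => intro n; simp
  | succ j ih =>
    intro n
    have e : 100 * (j + 1) = 100 + 100 * j := by ring
    rw [e, Function.iterate_add_apply]
    have h1 := (BB_lower (BB^[100 * j] h) (BB_nonneg h hh _) 100 n).2
    have h2 := ih (n + 1)
    have e2 : n + 1 + j = n + (j + 1) := by ring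
    rw [e2] at h2
    have h3 : (100 : ℝ) ^ 100 * (BB^[100 * j] h) (n + 1) ≤ (BB^[100] (BB^[100 * j] h)) n := by
      have : ((100 : ℕ) : ℝ) = 100 := by norm_num
      rw [this, mul_assoc] at h1
      linarith
    refine le_trans ?_ h3
    rw [pow_succ, mul_comm (((100 : ℝ) ^ 100) ^ j), mul_assoc]
    exact mul_le_mul_of_nonneg_left h2 (by positivity)

lemma growthR (h : ℕ → ℝ) (hh : ∀ n, 0 ≤ h n) (D : ℝ) (n : ℕ)
    (hD : ∀ m, (BB^[m] h) n ≤ D * 101 ^ m) (j : ℕ) : h (n + j) ≤ D * 3 ^ j := by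
  have hD0 : 0 ≤ D := by
    have h1 := hD 0
    have h2 := hh n
    simp only [Function.iterate_zero, id, pow_zero, mul_one] at h1
    linarith
  have h1 := (BB_iter h hh j n).trans (hD (100 * j))
  rw [pow_mul] at h1
  have h2 : ((101 : ℝ) ^ 100) ^ j ≤ ((100 : ℝ) ^ 100) ^ j * 3 ^ j := by
    rw [← mul_pow]
    exact pow_le_pow_left₀ (by positivity) (by norm_num) j
  have h3 : (0 : ℝ) < ((100 : ℝ) ^ 100) ^ j := by positivity
  have h4 : ((100 : ℝ) ^ 100) ^ j * h (n + j) ≤ ((100 : ℝ) ^ 100) ^ j * (D * 3 ^ j) := by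
    calc ((100 : ℝ) ^ 100) ^ j * h (n + j) ≤ D * ((101 : ℝ) ^ 100) ^ j := h1
      _ ≤ D * (((100 : ℝ) ^ 100) ^ j * 3 ^ j) := mul_le_mul_of_nonneg_left h2 hD0
      _ = _ := by ring
  exact le_of_mul_le_mul_left h4 h3

/-- coefficientwise majorization -/
def MajR (q : ℝ[X]) (P : ℝ[X]) : Prop := ∀ j, ‖q.coeff j‖ ≤ P.coeff j

lemma MajR.add {p q : ℝ[X]} {P Q : ℝ[X]} (hp : MajR p P) (hq : MajR q Q) : MajR (p + q) (P + Q) := by
  intro j
  rw [coeff_add, coeff_add]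
  exact (norm_add_le _ _).trans (add_le_add (hp j) (hq j))

lemma MajR.mul {p q : ℝ[X]} {P Q : ℝ[X]} (hp : MajR p P) (hq : MajR q Q) : MajR (p * q) (P * Q) := by
  intro j
  rw [coeff_mul, coeff_mul]
  refine (norm_sum_le _ _).trans (Finset.sum_le_sum (fun x _ => ?_))
  rw [norm_mul]
  exact mul_le_mul (hp _) (hq _) (norm_nonneg _) ((norm_nonneg _).trans (hp _))

lemma MajR.C {c : ℝ} {r : ℝ} (h : ‖c‖ ≤ r) : MajR (C c) (C r) := by
  intro j
  rw [coeff_C, coeff_C]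
  split_ifs
  · exact h
  · simp

lemma MajR.Xpow (k : ℕ) : MajR (X ^ k) (X ^ k) := by
  intro j
  rw [coeff_X_pow]
  split_ifs <;> simp

lemma MajR.pow {p : ℝ[X]} {P : ℝ[X]} (hp : MajR p P) (k : ℕ) : MajR (p ^ k) (P ^ k) := by
  induction k with
  | zero =>
    rw [pow_zero, pow_zero]
    have := MajR.Xpow 0
    simpa using this
  | succ k ih => rw [pow_succ, pow_succ]; exact ih.mul hp

noncomputable def eR : ℕ → ℝ[X]
  | 0 => C (-1 / 100 : ℝ) * X ^ 1
  | k + 1 => C 3 * eR k ^ 2 + C (-2) * eR k ^ 3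

noncomputable def pR : ℕ → ℝ[X]
  | 0 => C (1 / 100 : ℝ) * X ^ 1
  | k + 1 => C 3 * pR k ^ 2 + C 2 * pR k ^ 3

lemma eR_maj (k : ℕ) : MajR (eR k) (pR k) := by
  induction k with
  | zero =>
    refine MajR.mul (MajR.C ?_) (MajR.Xpow 1)
    norm_num
  | succ k ih =>
    refine MajR.add (MajR.mul (MajR.C ?_) (ih.pow 2)) (MajR.mul (MajR.C ?_) (ih.pow 3))
    · norm_num
    · norm_num

lemma pR_nonneg (k : ℕ) : 0 ≤ (pR k).eval 3 := by
  induction k with
  | zero => simp only [pR, eval_mul, eval_pow, eval_C, eval_X]; norm_num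
  | succ k ih => simp only [pR, eval_mul, eval_add, eval_pow, eval_C]; positivity

lemma pR_le (k : ℕ) : (pR k).eval 3 ≤ xx k := by
  induction k with
  | zero => simp only [pR, eval_mul, eval_pow, eval_C, eval_X, xx]; norm_num
  | succ k ih =>
    have := xx_step k _ (pR_nonneg k) ih
    simp only [pR, eval_mul, eval_add, eval_pow, eval_C]
    refine le_trans (le_of_eq ?_) this
    ring

lemma iter_smallR {R : Type*} [NormedRing R] [NormOneClass R] (k : ℕ) (E : R) (h : ‖E‖ ≤ xx k) :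
    ‖3 * E ^ 2 - 2 * E ^ 3‖ ≤ xx (k + 1) := by
  refine le_trans ?_ (xx_step k _ (norm_nonneg E) h)
  have h3 : ‖(3 : R)‖ ≤ 3 := by
    have := Nat.norm_cast_le (α := R) 3
    simpa using this
  have h2 : ‖(2 : R)‖ ≤ 2 := by
    have := Nat.norm_cast_le (α := R) 2
    simpa using this
  have e1 : ‖E ^ 2‖ ≤ ‖E‖ ^ 2 := norm_pow_le E 2
  have e2 : ‖E ^ 3‖ ≤ ‖E‖ ^ 3 := norm_pow_le E 3
  calc ‖3 * E ^ 2 - 2 * E ^ 3‖ ≤ ‖3 * E ^ 2‖ + ‖2 * E ^ 3‖ := norm_sub_le _ _
    _ ≤ 3 * ‖E‖ ^ 2 + 2 * ‖E‖ ^ 3 := add_le_add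
        ((norm_mul_le _ _).trans (mul_le_mul h3 e1 (norm_nonneg _) (by norm_num)))
        ((norm_mul_le _ _).trans (mul_le_mul h2 e2 (norm_nonneg _) (by norm_num)))
    _ = _ := by ring

variable {H : Type*} [NormedAddCommGroup H] [NormedSpace ℝ H]

/-- The operator. -/
noncomputable def TR (S : H →L[ℝ] H) : H →L[ℝ] H := (-100 : ℝ) • (1 : H →L[ℝ] H) + S

variable {S : H →L[ℝ] H}

lemma TR_apply (S : H →L[ℝ] H) (z : H) : TR S z = (-100 : ℝ) • z + S z := rfl

lemma TR_norm (hS : ‖S‖ ≤ 1) : ‖TR S‖ ≤ 101 := by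
  unfold TR
  refine (norm_add_le _ _).trans ?_
  have h1 : ‖(-100 : ℝ) • (1 : H →L[ℝ] H)‖ ≤ 100 := by
    rw [norm_smul]
    have h2 : ‖(1 : H →L[ℝ] H)‖ ≤ 1 := norm_id_le
    have h3 : ‖(-100 : ℝ)‖ = 100 := by norm_num
    rw [h3]
    linarith
  linarith

lemma eR_norm [Nontrivial H] (hS : ‖S‖ ≤ 1) (k : ℕ) : ‖1 - aeval (TR S) (eR k)‖ ≤ xx k := by
  induction k with
  | zero =>
    have e : 1 - aeval (TR S) (eR 0) = (1 / 100 : ℝ) • S := by
      simp only [eR, map_mul, map_pow, aeval_C, aeval_X, Algebra.algebraMap_eq_smul_one, pow_one, smul_mul_assoc, one_mul]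
      unfold TR
      match_scalars <;> ring
    rw [e, norm_smul]
    have h6 : ‖(1 / 100 : ℝ)‖ = 1 / 100 := by norm_num
    rw [h6]
    unfold xx
    linarith
  | succ k ih =>
    have h := iter_smallR k _ ih
    have e : 1 - aeval (TR S) (eR (k + 1)) = 3 * (1 - aeval (TR S) (eR k)) ^ 2 - 2 * (1 - aeval (TR S) (eR k)) ^ 3 := by
      simp only [eR, map_mul, map_add, map_pow, aeval_C]
      have h3 : (algebraMap ℝ (H →L[ℝ] H)) 3 = 3 := map_ofNat _ 3
      have h2 : (algebraMap ℝ (H →L[ℝ] H)) (-2) = -2 := by rw [map_neg, map_ofNat]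
      rw [h3, h2]
      generalize (aeval (TR S)) (eR k) = E
      noncomm_ring
    rw [e]
    exact h

lemma BB_link (S : H →L[ℝ] H) (φ : H →L[ℝ] ℝ) (m : ℕ) : ∀ (M : ℝ) (z : H) (n : ℕ),
    (BB^[m] (fun n => M - φ ((TR S ^ n) z))) n = M * 101 ^ m - φ ((TR S ^ n) ((S ^ m) z)) := by
  induction m with
  | zero => intro M z n; simp
  | succ m ih =>
    intro M z n
    rw [Function.iterate_succ_apply]
    have e : BB (fun n => M - φ ((TR S ^ n) z)) = fun n => (101 * M) - φ ((TR S ^ n) (S z)) := by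
      funext n
      simp only [BB]
      have e0 : S z = TR S z + (100 : ℝ) • z := by
        rw [TR_apply, neg_smul]
        abel
      have e1 : (TR S ^ n) (S z) = (TR S ^ (n + 1)) z + (100 : ℝ) • (TR S ^ n) z := by
        rw [e0, map_add, map_smul, pow_succ, mul_apply_eq_comp]
      rw [e1, map_add, map_smul, smul_eq_mul]
      ring
    rw [e, ih]
    have e2 : (S ^ (m + 1)) z = (S ^ m) (S z) := by rw [pow_succ, mul_apply_eq_comp]
    rw [e2, pow_succ]
    ring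

lemma a_growthR (hS : ‖S‖ ≤ 1) (φ : H →L[ℝ] ℝ) (z : H) (M : ℝ) (h : ∀ n : ℕ, φ ((TR S ^ n) z) ≤ M) :
    ∃ C : ℝ, 0 ≤ C ∧ ∀ n : ℕ, |φ ((TR S ^ n) z)| ≤ C * 3 ^ n := by
  set M' : ℝ := max M 0 with hM'
  have hM0 : 0 ≤ M' := le_max_right _ _
  have h' : ∀ n : ℕ, φ ((TR S ^ n) z) ≤ M' := fun n => (h n).trans (le_max_left _ _)
  set D : ℝ := M' + ‖φ‖ * ‖z‖ with hD
  have hD0 : 0 ≤ D := by positivity
  have hSpow : ∀ m, ‖(S ^ m) z‖ ≤ ‖z‖ := by
    intro m
    induction m with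
    | zero => simp
    | succ m ih =>
      rw [pow_succ', mul_apply_eq_comp]
      refine (S.le_opNorm _).trans ?_
      calc ‖S‖ * ‖(S ^ m) z‖ ≤ 1 * ‖z‖ := mul_le_mul hS ih (norm_nonneg _) (by norm_num)
        _ = ‖z‖ := one_mul _
  have hb : ∀ m, (BB^[m] (fun n => M' - φ ((TR S ^ n) z))) 0 ≤ D * 101 ^ m := by
    intro m
    rw [BB_link, pow_zero, one_apply_eq_self]
    have h1 : |φ ((S ^ m) z)| ≤ ‖φ‖ * ‖z‖ := by
      have h2 := φ.le_opNorm ((S ^ m) z)
      rw [Real.norm_eq_abs] at h2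
      exact h2.trans (mul_le_mul_of_nonneg_left (hSpow m) (norm_nonneg _))
    have h2 := (abs_le.1 h1).1
    have h3 : (1 : ℝ) ≤ 101 ^ m := one_le_pow₀ (by norm_num)
    have h4 : 0 ≤ ‖φ‖ * ‖z‖ := by positivity
    rw [hD, add_mul]
    nlinarith
  have hnn : ∀ n, 0 ≤ (fun n => M' - φ ((TR S ^ n) z)) n := by
    intro n
    have := h' n
    simp only
    linarith
  have hg : ∀ n, M' - φ ((TR S ^ n) z) ≤ D * 3 ^ n := by
    intro n
    have := growthR _ hnn D 0 hb n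
    rw [zero_add] at this
    exact this
  refine ⟨M' + D, by positivity, fun n => ?_⟩
  have h1 : (1 : ℝ) ≤ 3 ^ n := one_le_pow₀ (by norm_num)
  rw [abs_le]
  constructor
  · have := hg n
    have h2 : 0 ≤ M' * 3 ^ n := by positivity
    rw [add_mul]
    linarith
  · have := h' n
    have h2 : M' ≤ M' * 3 ^ n := le_mul_of_one_le_right hM0 h1
    have h3 : 0 ≤ D * 3 ^ n := by positivity
    rw [add_mul]
    linarith

lemma poly_boundR (T : H →L[ℝ] H) (φ : H →L[ℝ] ℝ) (z : H) (C : ℝ)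
    (h : ∀ n : ℕ, |φ ((T ^ n) z)| ≤ C * 3 ^ n) (q : ℝ[X]) (P : ℝ[X]) (hq : MajR q P) :
    |φ (aeval T q z)| ≤ C * P.eval 3 := by
  set N : ℕ := max q.natDegree P.natDegree + 1 with hN
  have e1 : φ (aeval T q z) = ∑ i ∈ Finset.range N, q.coeff i * φ ((T ^ i) z) := by
    rw [aeval_eq_sum_range' (n := N) (by omega), sum_apply, map_sum]
    simp
  have e3 : P.eval 3 = ∑ i ∈ Finset.range N, P.coeff i * 3 ^ i :=
    eval_eq_sum_range' (by omega) _
  rw [e1, e3, Finset.mul_sum]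
  refine (Finset.abs_sum_le_sum_abs _ _).trans (Finset.sum_le_sum (fun i _ => ?_))
  rw [abs_mul]
  have h3 := hq i
  rw [Real.norm_eq_abs] at h3
  have h4 := h i
  have h5 : 0 ≤ P.coeff i := (abs_nonneg _).trans h3
  calc |q.coeff i| * |φ ((T ^ i) z)| ≤ P.coeff i * (C * 3 ^ i) :=
        mul_le_mul h3 h4 (by positivity) h5
    _ = _ := by ring

lemma keyR [Nontrivial H] (hS : ‖S‖ ≤ 1) (φ : H →L[ℝ] ℝ) (z : H) (M : ℝ)
    (h : ∀ n : ℕ, φ ((TR S ^ n) z) ≤ M) (j : ℕ) : φ ((TR S ^ j) z) = 0 := by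
  obtain ⟨C, hC0, hC⟩ := a_growthR hS φ z M h
  have hTpow : ∀ n, ‖TR S ^ n‖ ≤ 101 ^ n := by
    intro n
    rcases Nat.eq_zero_or_pos n with h0 | h0
    · subst h0; rw [pow_zero, pow_zero]; exact norm_id_le
    · exact (norm_pow_le' _ h0).trans (pow_le_pow_left₀ (norm_nonneg _) (TR_norm hS) n)
  have hbd : ∀ k, |φ ((TR S ^ j) z)| ≤ (‖φ‖ * (101 ^ j * ‖z‖) + C * 3 ^ j) * xx k := by
    intro k
    have hx0 := (xx_pos k).le
    have h1 := poly_boundR (TR S) φ z C hC (X ^ j * eR k) (X ^ j * pR k) (MajR.mul (MajR.Xpow j) (eR_maj k))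
    have h2 : |φ ((TR S ^ j) ((1 - aeval (TR S) (eR k)) z))| ≤ (‖φ‖ * (101 ^ j * ‖z‖)) * xx k := by
      have h2 := φ.le_opNorm ((TR S ^ j) ((1 - aeval (TR S) (eR k)) z))
      rw [Real.norm_eq_abs] at h2
      refine h2.trans ?_
      rw [mul_assoc]
      refine mul_le_mul_of_nonneg_left ?_ (norm_nonneg _)
      refine ((TR S ^ j).le_opNorm _).trans ?_
      have h3 : ‖(1 - aeval (TR S) (eR k)) z‖ ≤ xx k * ‖z‖ :=
        (le_opNorm _ z).trans (mul_le_mul_of_nonneg_right (eR_norm hS k) (norm_nonneg _))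
      calc ‖TR S ^ j‖ * ‖(1 - aeval (TR S) (eR k)) z‖ ≤ 101 ^ j * (xx k * ‖z‖) :=
            mul_le_mul (hTpow j) h3 (norm_nonneg _) (by positivity)
        _ = _ := by ring
    have e1 : aeval (TR S) (X ^ j * eR k) z = (TR S ^ j) (aeval (TR S) (eR k) z) := by
      rw [map_mul, map_pow, aeval_X, mul_apply_eq_comp]
    rw [e1] at h1
    have e3 : (X ^ j * pR k).eval (3 : ℝ) ≤ 3 ^ j * xx k := by
      rw [eval_mul, eval_pow, eval_X]
      exact mul_le_mul_of_nonneg_left (pR_le k) (by positivity)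
    have e4 : φ ((TR S ^ j) z) = φ ((TR S ^ j) ((1 - aeval (TR S) (eR k)) z)) +
        φ ((TR S ^ j) (aeval (TR S) (eR k) z)) := by
      rw [sub_apply, one_apply_eq_self, map_sub, map_sub]; ring
    rw [e4]
    have h5 : |φ ((TR S ^ j) (aeval (TR S) (eR k) z))| ≤ C * (3 ^ j * xx k) :=
      h1.trans (mul_le_mul_of_nonneg_left e3 hC0)
    refine (abs_add_le _ _).trans ((add_le_add h2 h5).trans (le_of_eq ?_))
    ring
  have ht : Tendsto (fun k => (‖φ‖ * (101 ^ j * ‖z‖) + C * 3 ^ j) * xx k) atTop (𝓝 0) := by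
    have := xx_tendsto.const_mul (‖φ‖ * (101 ^ j * ‖z‖) + C * 3 ^ j)
    rw [mul_zero] at this
    exact this
  have h0 : |φ ((TR S ^ j) z)| ≤ 0 := ge_of_tendsto' ht hbd
  exact abs_nonpos_iff.1 h0

lemma phi_zeroR (x : H) (hx : Dense (Submodule.span ℝ (Set.range fun n : ℕ => (S ^ n) x) : Set H))
    (φ : H →L[ℝ] ℝ) (h : ∀ j : ℕ, φ ((TR S ^ j) x) = 0) : φ = 0 := by
  have h1 : ∀ q : ℝ[X], φ (aeval (TR S) q x) = 0 := by
    intro q
    rw [aeval_eq_sum_range, sum_apply, map_sum]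
    refine Finset.sum_eq_zero (fun i _ => ?_)
    rw [smul_apply, map_smul, h, smul_zero]
  have h2 : ∀ j, φ ((S ^ j) x) = 0 := by
    intro j
    have := h1 ((X + C 100) ^ j)
    have e : aeval (TR S) ((X + C 100 : ℝ[X]) ^ j) = S ^ j := by
      rw [map_pow, map_add, aeval_X, aeval_C, Algebra.algebraMap_eq_smul_one]
      congr 1
      unfold TR
      rw [neg_smul, neg_add_eq_sub, sub_add_cancel]
    rw [e] at this
    exact this
  apply ContinuousLinearMap.ext_on hx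
  rintro _ ⟨j, rfl⟩
  simp only [h2]
  rfl

theorem cc_of_cycR (hS : ‖S‖ ≤ 1) (x : H)
    (hx : Dense (Submodule.span ℝ (Set.range fun n : ℕ => (S ^ n) x) : Set H)) :
    Dense (convexHull ℝ (Set.range fun n : ℕ => (TR S ^ n) x)) := by
  rcases subsingleton_or_nontrivial H with hH | hH
  · intro y
    rw [Subsingleton.elim y x]
    exact subset_closure (subset_convexHull ℝ _ ⟨0, by simp⟩)
  by_contra hcon
  rw [dense_iff_closure_eq, ← ne_eq, Set.ne_univ_iff_exists_notMem] at hcon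
  obtain ⟨y, hy⟩ := hcon
  obtain ⟨φ, u, h1, h2⟩ := geometric_hahn_banach_closed_point
    (convex_convexHull ℝ (Set.range (fun n : ℕ => (TR S ^ n) x))).closure isClosed_closure hy
  have h3 : ∀ n : ℕ, φ ((TR S ^ n) x) ≤ u := by
    intro n
    exact (h1 _ (subset_closure (subset_convexHull ℝ _ ⟨n, rfl⟩))).le
  have h4 := phi_zeroR x hx φ (keyR hS φ x u h3)
  have h5 := h1 _ (subset_closure (subset_convexHull ℝ _ ⟨0, rfl⟩))
  rw [h4] at h2 h5
  simp at h2 h5
  linarith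

end Pool.Agent.L0h84.CC
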