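import Pool.Agent.L0h84.CC.Good
import Pool.Agent.L0h84.CC.Re
import Pool.Agent.Y509.CCyc.Norm

set_option autoImplicit false

/-!
# Convex-cyclic operators whose even powers are not convex-cyclic, on every separable Banach space
-/

open Filter Topology ContinuousLinearMap

namespace Pool.Agent.L0h84.CC

theorem not_dense_hull {X : Type*} [NormedAddCommGroup X] [NormedSpace ℝ X] (o : ℕ → X) (C : Set X)
    (h1 : Convex ℝ C) (h2 : IsClosed C) (h3 : ∀ n, o n ∈ C) (z : X) (hz : z ∉ C) :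
    ¬ Dense (convexHull ℝ (Set.range o)) := by
  intro hd
  have h4 : closure (convexHull ℝ (Set.range o)) ⊆ C :=
    h2.closure_subset_iff.2 (convexHull_min (by rintro _ ⟨n, rfl⟩; exact h3 n) h1)
  rw [hd.closure_eq] at h4
  exact hz (h4 (Set.mem_univ z))

theorem realCase (X : Type*) [NormedAddCommGroup X] [NormedSpace ℝ X] [CompleteSpace X]
    [TopologicalSpace.SeparableSpace X] [Nontrivial X] :
    ∃ T : X →L[ℝ] X, (∃ x, Dense (convexHull ℝ (Set.range fun n : ℕ => (T ^ n) x))) ∧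
      ∀ (m : ℕ) (x : X), ¬ Dense (convexHull ℝ (Set.range fun n : ℕ => ((T ^ (2 * m)) ^ n) x)) := by
  obtain ⟨S, x, φ, hS, hφ, hφS, hx⟩ := exists_good (𝕜 := ℝ) X
  refine ⟨TR S, ⟨x, cc_of_cycR hS x hx⟩, fun m x => ?_⟩
  have hT : ∀ z, φ (TR S z) = -100 * φ z := by
    intro z
    rw [TR_apply, map_add, map_smul, hφS, smul_eq_mul, add_zero]
  have hpow : ∀ (k : ℕ) (z : X), φ ((TR S ^ k) z) = (-100) ^ k * φ z := by
    intro k
    induction k with
    | zero => intro z; simp
    | succ k ih => intro z; rw [pow_succ, mul_apply_eq_comp, ih, hT, pow_succ]; ring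
  have horb : ∀ n : ℕ, φ (((TR S ^ (2 * m)) ^ n) x) = (10000 : ℝ) ^ (m * n) * φ x := by
    intro n
    rw [← pow_mul, hpow, mul_assoc, pow_mul]
    norm_num
  obtain ⟨v, hv⟩ : ∃ v, φ v ≠ 0 := by
    by_contra hcon
    push Not at hcon
    exact hφ (ContinuousLinearMap.ext hcon)
  rcases le_or_gt 0 (φ x) with h0 | h0
  · refine not_dense_hull _ {z | 0 ≤ φ z} ?_ ?_ ?_ (-(φ v)⁻¹ • v) ?_
    · intro a ha b hb s t hs ht _
      change 0 ≤ φ (s • a + t • b)
      change 0 ≤ φ a at ha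
      change 0 ≤ φ b at hb
      rw [map_add, map_smul, map_smul, smul_eq_mul, smul_eq_mul]
      positivity
    · exact isClosed_le continuous_const φ.continuous
    · intro n
      change 0 ≤ φ _
      rw [horb]
      positivity
    · change ¬ 0 ≤ φ _
      rw [map_smul, smul_eq_mul, neg_mul, inv_mul_cancel₀ hv]
      norm_num
  · refine not_dense_hull _ {z | φ z ≤ 0} ?_ ?_ ?_ ((φ v)⁻¹ • v) ?_
    · intro a ha b hb s t hs ht _
      change φ (s • a + t • b) ≤ 0
      change φ a ≤ 0 at ha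
      change φ b ≤ 0 at hb
      rw [map_add, map_smul, map_smul, smul_eq_mul, smul_eq_mul]
      have h1 := mul_nonpos_of_nonneg_of_nonpos hs ha
      have h2 := mul_nonpos_of_nonneg_of_nonpos ht hb
      linarith
    · exact isClosed_le φ.continuous continuous_const
    · intro n
      change φ _ ≤ 0
      rw [horb]
      exact mul_nonpos_of_nonneg_of_nonpos (by positivity) h0.le
    · change ¬ φ _ ≤ 0
      rw [map_smul, smul_eq_mul, inv_mul_cancel₀ hv]
      norm_num

theorem complexCase (X : Type*) [NormedAddCommGroup X] [NormedSpace ℂ X] [CompleteSpace X]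
    [TopologicalSpace.SeparableSpace X] [Nontrivial X] :
    ∃ T : X →L[ℂ] X, (∃ x, Dense (convexHull ℝ (Set.range fun n : ℕ => (T ^ n) x))) ∧
      ∀ (m : ℕ) (x : X), ¬ Dense (convexHull ℝ (Set.range fun n : ℕ => ((T ^ (2 * m)) ^ n) x)) := by
  obtain ⟨S, x, φ, hS, hφ, hφS, hx⟩ := exists_good (𝕜 := ℂ) X
  refine ⟨Pool.Agent.Y509.CCyc.TT S, ⟨x, Pool.Agent.Y509.CCyc.cc_of_cyc hS x hx⟩, fun m x => ?_⟩
  have hT : ∀ z, φ (Pool.Agent.Y509.CCyc.TT S z) = (10 * Complex.I) * φ z := by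
    intro z
    have h1 : Pool.Agent.Y509.CCyc.TT S z = (10 * Complex.I) • z + S z := rfl
    rw [h1, map_add, map_smul, hφS, smul_eq_mul, add_zero]
  have hpow : ∀ (k : ℕ) (z : X), φ ((Pool.Agent.Y509.CCyc.TT S ^ k) z) = (10 * Complex.I) ^ k * φ z := by
    intro k
    induction k with
    | zero => intro z; simp
    | succ k ih => intro z; rw [pow_succ, mul_apply_eq_comp, ih, hT, pow_succ]; ring
  have horb : ∀ n : ℕ, φ (((Pool.Agent.Y509.CCyc.TT S ^ (2 * m)) ^ n) x) =
      (((-100 : ℝ) ^ (m * n) : ℝ) : ℂ) * φ x := by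
    intro n
    rw [← pow_mul, hpow, mul_assoc, pow_mul]
    have h1 : (10 * Complex.I) ^ 2 = ((-100 : ℝ) : ℂ) := by
      rw [mul_pow, Complex.I_sq]
      push_cast
      norm_num
    rw [h1]
    push_cast
    rfl
  obtain ⟨v, hv⟩ : ∃ v, φ v ≠ 0 := by
    by_contra hcon
    push Not at hcon
    exact hφ (ContinuousLinearMap.ext hcon)
  obtain ⟨w, r, hw, hr⟩ : ∃ (w : ℂ) (r : ℝ), w ≠ 0 ∧ φ x = r * w := by
    by_cases h : φ x = 0
    · exact ⟨1, 0, one_ne_zero, by rw [h]; simp⟩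
    · exact ⟨φ x, 1, h, by simp⟩
  refine not_dense_hull _ {z | ((starRingEnd ℂ) w * φ z).im = 0} ?_ ?_ ?_ ((Complex.I * w * (φ v)⁻¹) • v) ?_
  · intro a ha b hb s t _ _ _
    change ((starRingEnd ℂ) w * φ (s • a + t • b)).im = 0
    change ((starRingEnd ℂ) w * φ a).im = 0 at ha
    change ((starRingEnd ℂ) w * φ b).im = 0 at hb
    have h1 : φ (s • a + t • b) = (s : ℂ) * φ a + (t : ℂ) * φ b := by
      have h2 : s • a = (s : ℂ) • a := rfl
      have h3 : t • b = (t : ℂ) • b := rfl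
      rw [h2, h3, map_add, map_smul, map_smul, smul_eq_mul, smul_eq_mul]
    have h4 : (starRingEnd ℂ) w * ((s : ℂ) * φ a + (t : ℂ) * φ b) =
        (s : ℂ) * ((starRingEnd ℂ) w * φ a) + (t : ℂ) * ((starRingEnd ℂ) w * φ b) := by ring
    rw [h1, h4, Complex.add_im, Complex.im_ofReal_mul, Complex.im_ofReal_mul, ha, hb]
    ring
  · have hc : Continuous fun z => ((starRingEnd ℂ) w * φ z).im :=
      Complex.continuous_im.comp (continuous_const.mul φ.continuous)
    exact isClosed_eq hc continuous_const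
  · intro n
    change ((starRingEnd ℂ) w * φ _).im = 0
    rw [horb, hr]
    have h1 : (starRingEnd ℂ) w * ((((-100 : ℝ) ^ (m * n) : ℝ) : ℂ) * ((r : ℂ) * w)) =
        (((-100 : ℝ) ^ (m * n) * r * Complex.normSq w : ℝ) : ℂ) := by
      have h2 : (Complex.normSq w : ℂ) = (starRingEnd ℂ) w * w := Complex.normSq_eq_conj_mul_self
      rw [Complex.ofReal_mul, Complex.ofReal_mul, h2]
      ring
    rw [h1, Complex.ofReal_im]
  · change ¬ ((starRingEnd ℂ) w * φ _).im = 0
    have h1 : φ ((Complex.I * w * (φ v)⁻¹) • v) = Complex.I * w := by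
      rw [map_smul, smul_eq_mul, mul_assoc, inv_mul_cancel₀ hv, mul_one]
    rw [h1]
    have h2 : (starRingEnd ℂ) w * (Complex.I * w) = Complex.I * ((Complex.normSq w : ℝ) : ℂ) := by
      rw [Complex.normSq_eq_conj_mul_self]
      ring
    rw [h2]
    have h3 : (Complex.I * ((Complex.normSq w : ℝ) : ℂ)).im = Complex.normSq w := by simp
    rw [h3]
    exact (Complex.normSq_pos.2 hw).ne'

end Pool.Agent.L0h84.CC
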