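import Pool.Agent.L0h84.CC.Sep

set_option autoImplicit false

/-!
# Cyclic contractions which are killed by a functional
-/

open Filter Topology ContinuousLinearMap

namespace Pool.Agent.L0h84.CC

variable {𝕜 : Type*} [RCLike 𝕜]

lemma span_inv {Y : Type*} [NormedAddCommGroup Y] [NormedSpace 𝕜 Y] (A : Y →L[𝕜] Y) (y : Y) :
    ∀ z ∈ Submodule.span 𝕜 (Set.range fun n : ℕ => (A ^ n) y),
      A z ∈ Submodule.span 𝕜 (Set.range fun n : ℕ => (A ^ n) y) := by
  intro z hz
  refine Submodule.span_induction ?_ ?_ ?_ ?_ hz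
  · rintro _ ⟨n, rfl⟩
    refine Submodule.subset_span ⟨n + 1, ?_⟩
    simp only [pow_succ', mul_apply_eq_comp]
  · rw [map_zero]; exact Submodule.zero_mem _
  · intro a b _ _ ha hb
    rw [map_add]; exact Submodule.add_mem _ ha hb
  · intro c a _ ha
    rw [map_smul]; exact Submodule.smul_mem _ _ ha

lemma span_smul {Y : Type*} [NormedAddCommGroup Y] [NormedSpace 𝕜 Y] (S : Y →L[𝕜] Y) (c : 𝕜) (hc : c ≠ 0) (x : Y) :
    Submodule.span 𝕜 (Set.range fun n : ℕ => (S ^ n) x) ≤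
      Submodule.span 𝕜 (Set.range fun n : ℕ => ((c • S) ^ n) x) := by
  refine Submodule.span_le.2 ?_
  rintro _ ⟨n, rfl⟩
  have h : (S ^ n) x = (c ^ n)⁻¹ • ((c • S) ^ n) x := by
    rw [smul_pow, smul_apply, smul_smul, inv_mul_cancel₀ (pow_ne_zero n hc), one_smul]
  simp only [h]
  exact Submodule.smul_mem _ _ (Submodule.subset_span ⟨n, rfl⟩)

theorem exists_good (X : Type*) [NormedAddCommGroup X] [NormedSpace 𝕜 X] [CompleteSpace X]
    [TopologicalSpace.SeparableSpace X] [Nontrivial X] :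
    ∃ (S : X →L[𝕜] X) (x : X) (φ : X →L[𝕜] 𝕜), ‖S‖ ≤ 1 ∧ φ ≠ 0 ∧ (∀ z, φ (S z) = 0) ∧
      Dense (Submodule.span 𝕜 (Set.range fun n : ℕ => (S ^ n) x) : Set X) := by
  classical
  obtain ⟨e, he0⟩ := exists_ne (0 : X)
  obtain ⟨φ, -, he⟩ := exists_sep (⊥ : Submodule 𝕜 X) (⊥ : Submodule 𝕜 X).closed_of_finiteDimensional e
    (by rwa [Submodule.mem_bot])
  have hφ0 : φ ≠ 0 := by
    intro h
    rw [h] at he
    exact zero_ne_one he
  haveI : CompleteSpace φ.ker := φ.isClosed_ker.completeSpace_coe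
  haveI : SecondCountableTopology X := UniformSpace.secondCountable_of_separable X
  obtain ⟨A, y, hA⟩ := exists_cyclic (𝕜 := 𝕜) φ.ker
  -- an invertible cyclic operator on the kernel
  obtain ⟨μ, hμ⟩ : ∃ μ : 𝕜, μ = ((‖A‖ + 1 : ℝ) : 𝕜) := ⟨_, rfl⟩
  have hμn : ‖μ‖ = ‖A‖ + 1 := by
    rw [hμ, RCLike.norm_ofReal, abs_of_pos (by positivity)]
  have hμ0 : μ ≠ 0 := by
    rw [← norm_pos_iff, hμn]
    positivity
  obtain ⟨B, hB⟩ : ∃ B : φ.ker →L[𝕜] φ.ker, B = μ • (1 : φ.ker →L[𝕜] φ.ker) + A := ⟨_, rfl⟩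
  have hBapp : ∀ z, B z = μ • z + A z := fun z => by rw [hB]; rfl
  have hu : IsUnit (1 - (-(μ⁻¹ • A)) : φ.ker →L[𝕜] φ.ker) := by
    refine isUnit_one_sub_of_norm_lt_one ?_
    rw [norm_neg, norm_smul, norm_inv, hμn, inv_mul_lt_iff₀ (by positivity)]
    linarith
  have hBs : Function.Surjective B := by
    obtain ⟨U, hU⟩ := hu
    intro z
    obtain ⟨V, hV⟩ : ∃ V : φ.ker →L[𝕜] φ.ker, (U : φ.ker →L[𝕜] φ.ker) * V = 1 := ⟨_, Units.mul_inv U⟩
    have h1 : (U : φ.ker →L[𝕜] φ.ker) (V z) = z := by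
      rw [← mul_apply_eq_comp, hV, one_apply_eq_self]
    refine ⟨μ⁻¹ • V z, ?_⟩
    rw [hBapp, smul_smul, mul_inv_cancel₀ hμ0, one_smul, map_smul]
    conv_rhs => rw [← h1]
    rw [hU, sub_apply, neg_apply, smul_apply, one_apply_eq_self, sub_neg_eq_add]
  set W := Submodule.span 𝕜 (Set.range fun n : ℕ => (B ^ n) y) with hW
  have hWA : Submodule.span 𝕜 (Set.range fun n : ℕ => (A ^ n) y) ≤ W := by
    refine Submodule.span_le.2 ?_
    rintro _ ⟨n, rfl⟩
    induction n with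
    | zero => exact Submodule.subset_span ⟨0, by simp⟩
    | succ n ih =>
      have h1 := span_inv B y _ ih
      rw [hBapp] at h1
      have h2 := (Submodule.add_mem_iff_right W (W.smul_mem μ ih)).1 h1
      have h3 : (A ^ (n + 1)) y = A ((A ^ n) y) := by rw [pow_succ', mul_apply_eq_comp]
      simp only [h3]
      exact h2
  have hWd : Dense (W : Set φ.ker) := hA.mono hWA
  have hBW : Dense (B '' (W : Set φ.ker)) := hBs.denseRange.dense_image B.continuous hWd
  -- the projection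
  have hP : ∀ z : X, z - φ z • e ∈ φ.ker := by
    intro z
    rw [LinearMap.mem_ker]
    change φ (z - φ z • e) = 0
    rw [map_sub, map_smul, he, smul_eq_mul, mul_one, sub_self]
  obtain ⟨P, hPdef⟩ : ∃ P : X →L[𝕜] φ.ker, ∀ z, ((P z : φ.ker) : X) = z - φ z • e :=
    ⟨(ContinuousLinearMap.id 𝕜 X - φ.smulRight e).codRestrict φ.ker (fun z => hP z), fun z => rfl⟩
  obtain ⟨S, hS⟩ : ∃ S : X →L[𝕜] X, ∀ z, S z = ((B (P z) : φ.ker) : X) :=
    ⟨φ.ker.subtypeL ∘L (B ∘L P), fun z => rfl⟩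
  have hPY : ∀ w : φ.ker, P (w : X) = w := by
    intro w
    apply Subtype.ext
    rw [hPdef]
    have : φ (w : X) = 0 := LinearMap.mem_ker.1 w.2
    rw [this, zero_smul, sub_zero]
  have hSφ : ∀ z, φ (S z) = 0 := by
    intro z
    rw [hS]
    exact LinearMap.mem_ker.1 (B (P z)).2
  have hPx : P (e + (y : X)) = y := by
    rw [map_add, hPY]
    have : P e = 0 := by
      apply Subtype.ext
      rw [hPdef, he, one_smul, sub_self]
      rfl
    rw [this, zero_add]
  have hpow : ∀ n : ℕ, (S ^ (n + 1)) (e + (y : X)) = (((B ^ (n + 1)) y : φ.ker) : X) := by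
    intro n
    induction n with
    | zero => rw [zero_add, pow_one, pow_one, hS, hPx]
    | succ n ih => rw [pow_succ', mul_apply_eq_comp, ih, hS, hPY, pow_succ' B (n + 1), mul_apply_eq_comp]
  set V := Submodule.span 𝕜 (Set.range fun n : ℕ => (S ^ n) (e + (y : X))) with hV
  have hBV : ∀ w ∈ W, ((B w : φ.ker) : X) ∈ V := by
    intro w hw
    refine Submodule.span_induction ?_ ?_ ?_ ?_ hw
    · rintro _ ⟨n, rfl⟩
      refine Submodule.subset_span ⟨n + 1, ?_⟩
      simp only [hpow, pow_succ' B n, mul_apply_eq_comp]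
    · rw [map_zero]; exact Submodule.zero_mem _
    · intro a b _ _ ha hb
      rw [map_add]; exact Submodule.add_mem _ ha hb
    · intro c a _ ha
      rw [map_smul]; exact Submodule.smul_mem _ _ ha
  have hYZ : ∀ w : φ.ker, (w : X) ∈ V.topologicalClosure := by
    have hcl : IsClosed {w : φ.ker | (w : X) ∈ V.topologicalClosure} :=
      V.isClosed_topologicalClosure.preimage continuous_subtype_val
    have h1 : B '' (W : Set φ.ker) ⊆ {w : φ.ker | (w : X) ∈ V.topologicalClosure} := by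
      rintro _ ⟨w, hw, rfl⟩
      exact V.le_topologicalClosure (hBV w hw)
    have h2 := hcl.closure_subset_iff.2 h1
    rw [hBW.closure_eq] at h2
    exact fun w => h2 (Set.mem_univ w)
  have heZ : e ∈ V.topologicalClosure := by
    have h1 : e + (y : X) ∈ V.topologicalClosure :=
      V.le_topologicalClosure (Submodule.subset_span ⟨0, by simp⟩)
    have h2 := V.topologicalClosure.sub_mem h1 (hYZ y)
    rwa [add_sub_cancel_right] at h2
  have hall : ∀ z : X, z ∈ V.topologicalClosure := by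
    intro z
    have h1 := V.topologicalClosure.add_mem (hYZ ⟨z - φ z • e, hP z⟩) (V.topologicalClosure.smul_mem (φ z) heZ)
    simpa using h1
  have hVd : Dense (V : Set X) := by
    intro z
    exact hall z
  -- scaling
  obtain ⟨c, hc⟩ : ∃ c : 𝕜, c = (((‖S‖ + 1)⁻¹ : ℝ) : 𝕜) := ⟨_, rfl⟩
  have hpos : (0 : ℝ) < (‖S‖ + 1)⁻¹ := by positivity
  have hcn : ‖c‖ = (‖S‖ + 1)⁻¹ := by rw [hc, RCLike.norm_ofReal, abs_of_pos hpos]
  have hc0 : c ≠ 0 := by
    rw [← norm_pos_iff, hcn]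
    exact hpos
  refine ⟨c • S, e + (y : X), φ, ?_, hφ0, fun z => ?_, hVd.mono (span_smul S c hc0 _)⟩
  · rw [norm_smul, hcn, inv_mul_le_iff₀ (by positivity)]
    linarith
  · rw [smul_apply, map_smul, hSφ, smul_zero]

end Pool.Agent.L0h84.CC
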